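import Pool.Agent.Run7.h576.MD.Core

/-!
# From `G`-invariant Hadamard matrices to Menon designs with the group `G × Q`
-/

set_option autoImplicit false
set_option linter.unusedSectionVars false

namespace Run7.h576.MD

open Finset

/-- A symmetric design with the Menon parameters `(4u², 2u² - u, u² - u)`, with a group of
automorphisms isomorphic to `A` which acts semiregularly on the points and on the blocks. -/
def HasMenonDesign (A : Type) [Group A] (u : ℕ) : Prop :=
  ∃ (P B : Type) (_ : Fintype P) (_ : Fintype B) (_ : MulAction A P) (_ : MulAction A B)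
    (inc : P → B → Prop),
    Fintype.card P = 4 * u ^ 2 ∧ Fintype.card B = 4 * u ^ 2 ∧
    (∀ b, {p | inc p b}.ncard = 2 * u ^ 2 - u) ∧
    (∀ p q, p ≠ q → {b | inc p b ∧ inc q b}.ncard = u ^ 2 - u) ∧
    (∀ (a : A) p b, inc (a • p) (a • b) ↔ inc p b) ∧
    (∀ (a : A) (p : P), a • p = p → a = 1) ∧ (∀ (a : A) (b : B), a • b = b → a = 1)

variable {G Q : Type} [Group G] [Group Q] [Fintype Q] [Fintype G]

/-- the action on the points -/
@[instance_reducible]
def actP (ι : G →* Q) : MulAction (G × Q) (Q × Q) where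
  smul a p := (ι a.1 * p.1 * a.2⁻¹, ι a.1 * p.2)
  one_smul p := by
    show (ι 1 * p.1 * 1⁻¹, ι 1 * p.2) = p
    simp
  mul_smul a b p := by
    show (ι (a.1 * b.1) * p.1 * (a.2 * b.2)⁻¹, ι (a.1 * b.1) * p.2) =
      (ι a.1 * (ι b.1 * p.1 * b.2⁻¹) * a.2⁻¹, ι a.1 * (ι b.1 * p.2))
    simp [mul_assoc]

/-- the action on the blocks -/
@[instance_reducible]
def actB (ι : G →* Q) : MulAction (G × Q) (Q × Q) where
  smul a p := (a.2 * p.1, ι a.1 * p.2)
  one_smul p := by
    show (1 * p.1, ι 1 * p.2) = p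
    simp
  mul_smul a b p := by
    show ((a.2 * b.2) * p.1, ι (a.1 * b.1) * p.2) = (a.2 * (b.2 * p.1), ι a.1 * (ι b.1 * p.2))
    simp [mul_assoc]

theorem menon_of_inv (ι : G →* Q) (hι : Function.Injective ι) (u : ℕ)
    (hu : Fintype.card Q = 2 * u) (H : Q → Q → ℤ) (hH : InvH ι.range H) :
    HasMenonDesign (G × Q) u := by
  classical
  have hcard : Fintype.card (Q × Q) = 4 * u ^ 2 := by
    rw [Fintype.card_prod, hu]
    ring
  refine ⟨Q × Q, Q × Q, inferInstance, inferInstance, actP ι, actB ι,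
    fun p b => R H p b = -1, hcard, hcard, ?_, ?_, ?_, ?_, ?_⟩
  · intro b
    rw [Set.ncard_eq_toFinset_card', Set.toFinset_ofPred]
    exact block_size hH.1 hH.2.1 u hu b
  · intro p q hpq
    rw [Set.ncard_eq_toFinset_card', Set.toFinset_ofPred]
    exact pair_count hH.1 hH.2.1 u hu p q hpq
  · intro a p b
    show R H (ι a.1 * p.1 * a.2⁻¹, ι a.1 * p.2) (a.2 * b.1, ι a.1 * b.2) = -1 ↔ _
    rw [R_inv hH (ι a.1) ⟨a.1, rfl⟩]
  · intro a p h
    have h' : (ι a.1 * p.1 * a.2⁻¹, ι a.1 * p.2) = p := h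
    have h1 := congrArg Prod.snd h'
    have h2 := congrArg Prod.fst h'
    simp only at h1 h2
    have h3 : ι a.1 = 1 := by
      have : ι a.1 * p.2 = 1 * p.2 := by rw [h1, one_mul]
      exact mul_right_cancel this
    rw [h3, one_mul] at h2
    have h4 : a.2⁻¹ = 1 := by
      have : p.1 * a.2⁻¹ = p.1 * 1 := by rw [h2, mul_one]
      exact mul_left_cancel this
    exact Prod.ext (hι (by rw [h3]; exact (map_one ι).symm)) (inv_eq_one.mp h4)
  · intro a p h
    have h' : (a.2 * p.1, ι a.1 * p.2) = p := h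
    have h1 := congrArg Prod.snd h'
    have h2 := congrArg Prod.fst h'
    simp only at h1 h2
    have h3 : ι a.1 = 1 := by
      have : ι a.1 * p.2 = 1 * p.2 := by rw [h1, one_mul]
      exact mul_right_cancel this
    have h4 : a.2 = 1 := by
      have : a.2 * p.1 = 1 * p.1 := by rw [h2, one_mul]
      exact mul_right_cancel this
    exact Prod.ext (hι (by rw [h3]; exact (map_one ι).symm)) h4

/-- identification of `Q` with `Fin (2 ^ t) × G` as sets with a left action of `G` -/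
theorem exists_equiv (ι : G →* Q) (hι : Function.Injective ι) (t : ℕ)
    (hc : Fintype.card Q = 2 ^ t * Fintype.card G) :
    ∃ e : Q ≃ Fin (2 ^ t) × G, ∀ g q, e (ι g * q) = ((e q).1, g * (e q).2) := by
  classical
  let S : Subgroup Q := ι.range
  have hS : Nat.card S = Fintype.card G := by
    rw [← Nat.card_eq_fintype_card]
    exact (Nat.card_congr (MonoidHom.ofInjective hι).toEquiv).symm
  have hG0 : 0 < Fintype.card G := Fintype.card_pos
  have hidx : Fintype.card (Q ⧸ S) = 2 ^ t := by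
    have h1 := Subgroup.card_eq_card_quotient_mul_card_subgroup S
    rw [hS, Nat.card_eq_fintype_card, Nat.card_eq_fintype_card, hc] at h1
    exact (Nat.eq_of_mul_eq_mul_right hG0 h1).symm
  obtain ⟨φ⟩ : Nonempty ((Q ⧸ S) ≃ Fin (2 ^ t)) := by
    refine ⟨Fintype.equivOfCardEq ?_⟩
    rw [hidx, Fintype.card_fin]
  have hmem : ∀ q : Q, q * ((q⁻¹ : Q) : Q ⧸ S).out ∈ S := by
    intro q
    have h1 : (((q⁻¹ : Q) : Q ⧸ S).out : Q ⧸ S) = ((q⁻¹ : Q) : Q ⧸ S) := QuotientGroup.out_eq' _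
    have h2 := QuotientGroup.eq.mp h1.symm
    rwa [inv_inv] at h2
  choose s hs using hmem
  let f : Q → Fin (2 ^ t) × G := fun q => (φ ((q⁻¹ : Q) : Q ⧸ S), s q)
  have hf : Function.Injective f := by
    intro x y hxy
    have h1 : (((x⁻¹ : Q) : Q ⧸ S)) = ((y⁻¹ : Q) : Q ⧸ S) := φ.injective (congrArg Prod.fst hxy)
    have h2 : s x = s y := congrArg Prod.snd hxy
    have h3 := hs x
    have h4 := hs y
    rw [h2, h1, h4] at h3
    exact (mul_right_cancel h3).symm
  have hbij : Function.Bijective f := by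
    rw [Fintype.bijective_iff_injective_and_card]
    refine ⟨hf, ?_⟩
    rw [hc, Fintype.card_prod, Fintype.card_fin]
  refine ⟨Equiv.ofBijective f hbij, fun g q => ?_⟩
  have hcos : (((ι g * q)⁻¹ : Q) : Q ⧸ S) = ((q⁻¹ : Q) : Q ⧸ S) := by
    rw [QuotientGroup.eq]
    have : ((ι g * q)⁻¹)⁻¹ * q⁻¹ = ι g := by group
    rw [this]
    exact ⟨g, rfl⟩
  show f (ι g * q) = ((f q).1, g * (f q).2)
  refine Prod.ext ?_ ?_
  · show φ _ = φ _
    rw [hcos]
  · show s (ι g * q) = g * s q
    apply hι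
    rw [hs, map_mul, hs, hcos, mul_assoc]

/-- transport of an invariant Hadamard matrix -/
theorem transport (ι : G →* Q) (hι : Function.Injective ι) (t : ℕ)
    (hc : Fintype.card Q = 2 ^ t * Fintype.card G)
    (H : Fin (2 ^ t) × G → Fin (2 ^ t) × G → ℤ) (h1 : ∀ x y, H x y = 1 ∨ H x y = -1)
    (h2 : ∀ x y, x ≠ y → ∑ z, H x z * H y z = 0)
    (h3 : ∀ (g x y : G) (i j : Fin (2 ^ t)), H (i, g * x) (j, g * y) = H (i, x) (j, y)) :
    ∃ H' : Q → Q → ℤ, InvH ι.range H' := by
  obtain ⟨e, he⟩ := exists_equiv ι hι t hc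
  refine ⟨fun x y => H (e x) (e y), fun x y => h1 _ _, fun x y hxy => ?_, ?_⟩
  · rw [← h2 (e x) (e y) (fun h => hxy (e.injective h))]
    exact Fintype.sum_equiv e _ _ fun z => rfl
  · rintro _ ⟨g, rfl⟩ x y
    show H (e (ι g * x)) (e (ι g * y)) = _
    rw [he, he]
    exact h3 g (e x).2 (e y).2 (e x).1 (e y).1

end Run7.h576.MD
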