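import Mathlib

/-!
# Menon designs from group invariant Hadamard matrices

Let `H` be a Hadamard matrix with rows and columns indexed by a group `Q`, invariant under the left
multiplications by the elements of a subgroup `G`. The matrix `R (a, x) (b, y) = H (a b) x * H (a b) y`
is a regular Hadamard matrix of order `|Q|²`, on which `G × Q` acts.
-/

set_option autoImplicit false
set_option linter.unusedSectionVars false

namespace Run7.h576.MD

open Finset

/-- a Hadamard matrix indexed by `Q`, invariant under the left multiplications by `G` -/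
def InvH {Q : Type} [Group Q] [Fintype Q] (G : Subgroup Q) (H : Q → Q → ℤ) : Prop :=
  (∀ x y, H x y = 1 ∨ H x y = -1) ∧
  (∀ x y, x ≠ y → ∑ z, H x z * H y z = 0) ∧
  ∀ g ∈ G, ∀ x y, H (g * x) (g * y) = H x y

variable {Q : Type} [Group Q] [Fintype Q] [DecidableEq Q]

theorem sq_one {a : ℤ} (h : a = 1 ∨ a = -1) : a * a = 1 := by
  rcases h with rfl | rfl <;> norm_num

/-- the columns of a Hadamard matrix are orthogonal -/
theorem cols {N : Type} [Fintype N] [DecidableEq N] (H : N → N → ℤ)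
    (h1 : ∀ x y, H x y = 1 ∨ H x y = -1) (h2 : ∀ x y, x ≠ y → ∑ z, H x z * H y z = 0)
    (x y : N) : ∑ z, H z x * H z y = if x = y then (Fintype.card N : ℤ) else 0 := by
  classical
  have hN : (Fintype.card N : ℚ) ≠ 0 := by
    have : 0 < Fintype.card N := Fintype.card_pos_iff.mpr ⟨x⟩
    positivity
  let A : Matrix N N ℚ := Matrix.of fun i j => (H i j : ℚ)
  have h3 : A * A.transpose = (Fintype.card N : ℚ) • (1 : Matrix N N ℚ) := by
    ext i j
    rw [Matrix.mul_apply, Matrix.smul_apply, Matrix.one_apply]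
    simp only [A, Matrix.transpose_apply, Matrix.of_apply, smul_eq_mul]
    by_cases hij : i = j
    · subst hij
      rw [if_pos rfl, mul_one]
      have : ∀ z, (H i z : ℚ) * H i z = 1 := fun z => by
        have := sq_one (h1 i z)
        exact_mod_cast this
      simp [this]
    · rw [if_neg hij, mul_zero]
      have := h2 i j hij
      exact_mod_cast this
  have h4 : A * ((Fintype.card N : ℚ)⁻¹ • A.transpose) = 1 := by
    rw [Matrix.mul_smul, h3, smul_smul, inv_mul_cancel₀ hN, one_smul]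
  have h5 := mul_eq_one_comm.mp h4
  rw [Matrix.smul_mul] at h5
  have h6 := congrFun (congrFun h5 x) y
  rw [Matrix.smul_apply, Matrix.mul_apply, Matrix.one_apply] at h6
  simp only [A, Matrix.transpose_apply, Matrix.of_apply, smul_eq_mul] at h6
  have h7 : (∑ z, (H z x : ℚ) * H z y) = if x = y then (Fintype.card N : ℚ) else 0 := by
    split_ifs at h6 ⊢ with hxy
    · field_simp at h6
      linarith
    · rcases mul_eq_zero.mp h6 with h8 | h8
      · exact absurd (inv_eq_zero.mp h8) hN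
      · exact h8
  split_ifs at h7 ⊢
  · exact_mod_cast h7
  · exact_mod_cast h7

/-- the regular Hadamard matrix of order `|Q|²` -/
def R (H : Q → Q → ℤ) (p b : Q × Q) : ℤ := H (p.1 * b.1) p.2 * H (p.1 * b.1) b.2

theorem R_pm {H : Q → Q → ℤ} (h1 : ∀ x y, H x y = 1 ∨ H x y = -1) (p b : Q × Q) :
    R H p b = 1 ∨ R H p b = -1 := by
  unfold R
  rcases h1 (p.1 * b.1) p.2 with h | h <;> rcases h1 (p.1 * b.1) b.2 with h' | h' <;>
    rw [h, h'] <;> norm_num

theorem R_inv {G : Subgroup Q} {H : Q → Q → ℤ} (h : InvH G H) (g : Q) (hg : g ∈ G) (k : Q)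
    (p b : Q × Q) : R H (g * p.1 * k⁻¹, g * p.2) (k * b.1, g * b.2) = R H p b := by
  unfold R
  have e : g * p.1 * k⁻¹ * (k * b.1) = g * (p.1 * b.1) := by group
  simp only [e, h.2.2 g hg]

theorem R_row {H : Q → Q → ℤ} (h1 : ∀ x y, H x y = 1 ∨ H x y = -1)
    (h2 : ∀ x y, x ≠ y → ∑ z, H x z * H y z = 0) (p : Q × Q) :
    ∑ b, R H p b = Fintype.card Q := by
  rw [Fintype.sum_prod_type]
  unfold R
  simp only
  rw [Finset.sum_comm]
  have : ∀ y : Q, ∑ x : Q, H (p.1 * x) p.2 * H (p.1 * x) y =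
      if p.2 = y then (Fintype.card Q : ℤ) else 0 := by
    intro y
    rw [← cols H h1 h2 p.2 y]
    exact Fintype.sum_equiv (Equiv.mulLeft p.1) _ _ fun x => rfl
  simp [this]

theorem R_col {H : Q → Q → ℤ} (h1 : ∀ x y, H x y = 1 ∨ H x y = -1)
    (h2 : ∀ x y, x ≠ y → ∑ z, H x z * H y z = 0) (b : Q × Q) :
    ∑ p, R H p b = Fintype.card Q := by
  rw [Fintype.sum_prod_type]
  unfold R
  simp only
  rw [Finset.sum_comm]
  have : ∀ y : Q, ∑ x : Q, H (x * b.1) y * H (x * b.1) b.2 =
      if y = b.2 then (Fintype.card Q : ℤ) else 0 := by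
    intro y
    rw [← cols H h1 h2 y b.2]
    exact Fintype.sum_equiv (Equiv.mulRight b.1) _ _ fun x => rfl
  simp [this]

theorem R_orth {H : Q → Q → ℤ} (h1 : ∀ x y, H x y = 1 ∨ H x y = -1)
    (h2 : ∀ x y, x ≠ y → ∑ z, H x z * H y z = 0) (p q : Q × Q) (hpq : p ≠ q) :
    ∑ b, R H p b * R H q b = 0 := by
  rw [Fintype.sum_prod_type]
  unfold R
  simp only
  have e : ∀ b : Q, ∑ y : Q, H (p.1 * b) p.2 * H (p.1 * b) y * (H (q.1 * b) q.2 * H (q.1 * b) y) =
      H (p.1 * b) p.2 * H (q.1 * b) q.2 * ∑ y : Q, H (p.1 * b) y * H (q.1 * b) y := by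
    intro b
    rw [Finset.mul_sum]
    exact Finset.sum_congr rfl fun y _ => by ring
  simp only [e]
  by_cases h : p.1 = q.1
  · have hne : p.2 ≠ q.2 := fun h' => hpq (Prod.ext h h')
    have e2 : ∀ b : Q, ∑ y : Q, H (p.1 * b) y * H (q.1 * b) y = Fintype.card Q := by
      intro b
      rw [h]
      have : ∀ y, H (q.1 * b) y * H (q.1 * b) y = 1 := fun y => sq_one (h1 _ _)
      simp [this]
    simp only [e2, ← Finset.sum_mul]
    have e3 : ∑ b : Q, H (p.1 * b) p.2 * H (q.1 * b) q.2 = 0 := by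
      have := cols H h1 h2 p.2 q.2
      rw [if_neg hne] at this
      rw [← this, h]
      exact Fintype.sum_equiv (Equiv.mulLeft q.1) _ _ fun x => rfl
    rw [e3, zero_mul]
  · refine Finset.sum_eq_zero fun b _ => ?_
    rw [h2 (p.1 * b) (q.1 * b) (fun h' => h (mul_right_cancel h')), mul_zero]

/-- the number of entries `-1` -/
theorem count_neg {ι : Type} [Fintype ι] (f : ι → ℤ) (h : ∀ i, f i = 1 ∨ f i = -1) :
    2 * ((univ.filter fun i => f i = -1).card : ℤ) = Fintype.card ι - ∑ i, f i := by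
  have e : ∀ i, f i = 1 - 2 * (if f i = -1 then 1 else 0) := by
    intro i
    rcases h i with h' | h' <;> rw [h'] <;> norm_num
  have e2 : ∑ i, f i = ∑ i, (1 - 2 * (if f i = -1 then (1 : ℤ) else 0)) :=
    Finset.sum_congr rfl fun i _ => e i
  rw [e2, Finset.sum_sub_distrib, ← Finset.mul_sum, Finset.sum_boole]
  simp

/-- the number of common entries `-1` -/
theorem count_two {ι : Type} [Fintype ι] (f g : ι → ℤ) (hf : ∀ i, f i = 1 ∨ f i = -1)
    (hg : ∀ i, g i = 1 ∨ g i = -1) :
    4 * ((univ.filter fun i => f i = -1 ∧ g i = -1).card : ℤ) =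
      Fintype.card ι - ∑ i, f i - ∑ i, g i + ∑ i, f i * g i := by
  have e : ∀ i, 4 * (if f i = -1 ∧ g i = -1 then (1 : ℤ) else 0) = 1 - f i - g i + f i * g i := by
    intro i
    rcases hf i with h' | h' <;> rcases hg i with h'' | h'' <;> rw [h', h''] <;> norm_num
  have e2 : ∑ i, 4 * (if f i = -1 ∧ g i = -1 then (1 : ℤ) else 0) =
      ∑ i, (1 - f i - g i + f i * g i) := Finset.sum_congr rfl fun i _ => e i
  rw [← Finset.mul_sum, Finset.sum_boole] at e2
  rw [e2, Finset.sum_add_distrib, Finset.sum_sub_distrib, Finset.sum_sub_distrib]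
  simp

theorem block_size {H : Q → Q → ℤ} (h1 : ∀ x y, H x y = 1 ∨ H x y = -1)
    (h2 : ∀ x y, x ≠ y → ∑ z, H x z * H y z = 0) (u : ℕ) (hu : Fintype.card Q = 2 * u)
    (b : Q × Q) : (univ.filter fun p => R H p b = -1).card = 2 * u ^ 2 - u := by
  have h := count_neg (fun p => R H p b) (fun p => R_pm h1 p b)
  rw [R_col h1 h2 b, Fintype.card_prod, hu] at h
  push_cast at h
  have h3 : ((univ.filter fun p => R H p b = -1).card : ℤ) + u = 2 * u ^ 2 := by linarith
  have h4 : (univ.filter fun p => R H p b = -1).card + u = 2 * u ^ 2 := by exact_mod_cast h3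
  omega

theorem pair_count {H : Q → Q → ℤ} (h1 : ∀ x y, H x y = 1 ∨ H x y = -1)
    (h2 : ∀ x y, x ≠ y → ∑ z, H x z * H y z = 0) (u : ℕ) (hu : Fintype.card Q = 2 * u)
    (p q : Q × Q) (hpq : p ≠ q) :
    (univ.filter fun b => R H p b = -1 ∧ R H q b = -1).card = u ^ 2 - u := by
  have h := count_two (fun b => R H p b) (fun b => R H q b) (fun b => R_pm h1 p b)
    (fun b => R_pm h1 q b)
  rw [R_row h1 h2 p, R_row h1 h2 q, R_orth h1 h2 p q hpq, Fintype.card_prod, hu] at h
  push_cast at h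
  have h3 : ((univ.filter fun b => R H p b = -1 ∧ R H q b = -1).card : ℤ) + u = u ^ 2 := by
    linarith
  have h4 : (univ.filter fun b => R H p b = -1 ∧ R H q b = -1).card + u = u ^ 2 := by
    exact_mod_cast h3
  omega

end Run7.h576.MD
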